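import Pool.Agent.HW4.Sfun
import Pool.Agent.HW3.Main
import Pool.Agent.HW3.Defs
import Pool.Agent.HW3.Weil
import Pool.Agent.HW.Eul
import Pool.Agent.HW.SymEx

/-!
# Assembly: polynomials in the Weil numbers
-/

set_option autoImplicit false

open Pool.Agent.Helper29.Zeta Pool.Agent.HW Pool.Agent.HW3

namespace Pool.Agent.HW4

/-- a class of functions on the prime powers which is closed under sums, products, multiplication
by `n` and symmetric powers -/
class Closed (N : ℕ) (P : (ℕ → ℂ) → Prop) : Prop where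
  congr : ∀ c c' : ℕ → ℂ, (∀ n, IsPrimePow n → c' n = c n) → P c → P c'
  zero : P (fun _ => 0)
  one : P (ind N)
  add : ∀ c c' : ℕ → ℂ, P c → P c' → P (fun n => c n + c' n)
  mul : ∀ c c' : ℕ → ℂ, P c → P c' → P (fun n => c n * c' n)
  line : ∀ c : ℕ → ℂ, P c → P (fun n => (n : ℂ) * c n)
  sym : ∀ (c : ℕ → ℂ) (σ : ℕ → ℕ → ℂ), P c → (∀ n, IsPrimePow n → σ 0 n = ind N n) →
    (∀ m n : ℕ, IsPrimePow n →
      (m : ℂ) * σ m n = ∑ l ∈ Finset.range m, c (n ^ (l + 1)) * σ (m - (l + 1)) n) →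
    ∀ m, P (σ m)

/-- a class of functions which vanish on the prime powers not prime to `N` -/
class Van (N : ℕ) (P : (ℕ → ℂ) → Prop) : Prop where
  bad : ∀ c : ℕ → ℂ, P c → ∀ n, IsPrimePow n → ¬ Good N n → c n = 0

/-- the counting functions in the class `P` -/
def Cl (_N : ℕ) (P : (ℕ → ℂ) → Prop) (c : ℕ → ℂ) : Prop := IsCount c ∧ P c

/-- the pure functions in the class `P` -/
def PP (N : ℕ) (P : (ℕ → ℂ) → Prop) (c : ℕ → ℂ) : Prop := IsPure N c ∧ P c

/-- the functions which vanish on the prime powers not prime to `N` -/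
def V0 (N : ℕ) (c : ℕ → ℂ) : Prop := ∀ n, IsPrimePow n → ¬ Good N n → c n = 0

instance (N : ℕ) : Van N (V0 N) := ⟨fun _ h => h⟩

instance (N : ℕ) (P : (ℕ → ℂ) → Prop) : Van N (PP N P) := by
  refine ⟨fun c h n hn hb => ?_⟩
  obtain ⟨⟨J, _, wt, A, hW⟩, -⟩ := h
  obtain ⟨p, k, hp, hk, rfl⟩ := hn
  refine hW.bad p k hp.nat_prime ?_ hk
  by_contra hN
  exact hb (good_iff.2 ⟨p, k, hp.nat_prime, hN, hk, rfl⟩)

/-- a solution of Newton's recursion -/
lemma eq_ind_mul {N : ℕ} {c : ℕ → ℂ} {σ : ℕ → ℕ → ℂ}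
    (h0 : ∀ n, IsPrimePow n → σ 0 n = ind N n)
    (h1 : ∀ m n : ℕ, IsPrimePow n →
      (m : ℂ) * σ m n = ∑ l ∈ Finset.range m, c (n ^ (l + 1)) * σ (m - (l + 1)) n)
    (m : ℕ) {n : ℕ} (hn : IsPrimePow n) : σ m n = ind N n * hsum (fun l => c (n ^ l)) m := by
  rw [← h0 n hn]
  exact hsum_of_rec (σ := fun m => σ m n) (fun m => h1 m n hn) m

instance (N : ℕ) (P : (ℕ → ℂ) → Prop) [Closed N P] : Closed N (PP N P) where
  congr c c' h hc := ⟨hc.1.congr h, Closed.congr (N := N) _ _ h hc.2⟩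
  zero := ⟨IsPure.zero N, Closed.zero N⟩
  one := ⟨isPure_ind N, Closed.one⟩
  add c c' h h' := ⟨h.1.add h'.1, Closed.add (N := N) _ _ h.2 h'.2⟩
  mul c c' h h' := ⟨h.1.mul h'.1, Closed.mul (N := N) _ _ h.2 h'.2⟩
  line c h := ⟨h.1.q, Closed.line (N := N) _ h.2⟩
  sym c σ h h0 h1 m := by
    refine ⟨?_, Closed.sym (N := N) c σ h.2 h0 h1 m⟩
    refine (IsPure.sym h.1 (σ := fun m n => hsum (fun l => c (n ^ l)) m)
      (fun n _ => hsum_zero _) (fun m n _ => hsum_rec _ m) m).congr fun n hn => ?_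
    rw [eq_ind_mul h0 h1 m hn, mul_comm]

instance (N : ℕ) : Closed N (V0 N) where
  congr c c' h hc n hn hb := by rw [h n hn, hc n hn hb]
  zero n _ _ := rfl
  one n hn hb := if_neg fun h => hb ⟨hn, h⟩
  add c c' h h' n hn hb := by
    show c n + c' n = 0
    rw [h n hn hb, h' n hn hb, add_zero]
  mul c c' h _ n hn hb := by
    show c n * c' n = 0
    rw [h n hn hb, zero_mul]
  line c h n hn hb := by
    show (n : ℂ) * c n = 0
    rw [h n hn hb, mul_zero]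
  sym c σ h h0 h1 m n hn hb := by
    rw [eq_ind_mul h0 h1 m hn]
    have : ind N n = 0 := if_neg fun h => hb ⟨hn, h⟩
    rw [this, zero_mul]

open Classical in
/-- the function attached to a polynomial in the Weil numbers -/
noncomputable def mf (N : ℕ) {V : Type} [Fintype V] (A : ℕ → V → ℂ) (f : MvPolynomial V ℤ) (n : ℕ) :
    ℂ :=
  if Good N n then MvPolynomial.eval₂ (Int.castRingHom ℂ) (fun v => alph A v n) f else 0

lemma not_good {N p k : ℕ} (hp : p.Prime) (hN : p ∣ N) (hk : 0 < k) : ¬ Good N (p ^ k) := by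
  rintro ⟨-, h⟩
  rw [Nat.coprime_pow_left_iff hk, Nat.Prime.coprime_iff_not_dvd hp] at h
  exact h hN

lemma mf_pow (N : ℕ) {V : Type} [Fintype V] (A : ℕ → V → ℂ) (f : MvPolynomial V ℤ) (p k : ℕ)
    (hp : p.Prime) (hk : 0 < k) :
    mf N A f (p ^ k) = if p ∣ N then 0 else
      ∑ t : f.support, ((f.coeff t.1 : ℤ) : ℂ) * (∏ v, A p v ^ t.1 v) ^ k := by
  unfold mf
  by_cases hN : p ∣ N
  · rw [if_neg (not_good hp hN hk), if_pos hN]
  · rw [if_pos (good_iff.2 ⟨p, k, hp, hN, hk, rfl⟩), if_neg hN, MvPolynomial.eval₂_eq',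
      ← Finset.sum_coe_sort f.support]
    refine Finset.sum_congr rfl fun t _ => ?_
    rw [eq_intCast]
    congr 1
    rw [← Finset.prod_pow]
    refine Finset.prod_congr rfl fun v _ => ?_
    rw [alph_pow A v hp hk, ← pow_mul, ← pow_mul, mul_comm]

/-- the Weil numbers have polynomial size -/
lemma norm_monomial {N : ℕ} {V : Type} [Fintype V] {A : ℕ → V → ℂ} {wt : V → ℕ}
    (h : ∀ p : ℕ, p.Prime → ¬ p ∣ N → ∀ v, ‖A p v‖ = (p : ℝ) ^ ((wt v : ℝ) / 2))
    (f : MvPolynomial V ℤ) : ∃ a : ℕ, ∀ p : ℕ, p.Prime → ¬ p ∣ N → ∀ t : f.support,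
      ‖∏ v, A p v ^ t.1 v‖ ≤ (p : ℝ) ^ a := by
  refine ⟨∑ t : f.support, ∑ v, wt v * t.1 v, fun p hp hN t => ?_⟩
  have hp1 : (1 : ℝ) ≤ p := by exact_mod_cast hp.one_lt.le
  have h1 : ∀ v, ‖A p v ^ t.1 v‖ ≤ (p : ℝ) ^ (wt v * t.1 v) := by
    intro v
    rw [norm_pow, h p hp hN v, pow_mul]
    refine pow_le_pow_left₀ (by positivity) ?_ _
    rw [← Real.rpow_natCast]
    refine Real.rpow_le_rpow_of_exponent_le hp1 ?_
    have : (0 : ℝ) ≤ wt v := Nat.cast_nonneg _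
    linarith
  rw [norm_prod]
  refine (Finset.prod_le_prod (fun v _ => norm_nonneg _) (fun v _ => h1 v)).trans ?_
  rw [Finset.prod_pow_eq_pow_sum]
  refine pow_le_pow_right₀ hp1 ?_
  exact Finset.single_le_sum (f := fun t : f.support => ∑ v, wt v * t.1 v)
    (fun _ _ => Nat.zero_le _) (Finset.mem_univ t)

lemma growth_mf {N : ℕ} {V : Type} [Fintype V] {A : ℕ → V → ℂ} {wt : V → ℕ}
    (h : ∀ p : ℕ, p.Prime → ¬ p ∣ N → ∀ v, ‖A p v‖ = (p : ℝ) ^ ((wt v : ℝ) / 2))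
    (f : MvPolynomial V ℤ) : Growth (mf N A f) := by
  obtain ⟨a, ha⟩ := norm_monomial h f
  exact growth_weil N (fun t : f.support => f.coeff t.1)
    (fun p t => ∏ v, A p v ^ t.1 v) a ha (mf N A f) (mf_pow N A f)

/-- the Euler product -/
lemma lpoly_eq {N : ℕ} {V : Type} [Fintype V] {A : ℕ → V → ℂ} {wt : V → ℕ}
    (h : ∀ p : ℕ, p.Prime → ¬ p ∣ N → ∀ v, ‖A p v‖ = (p : ℝ) ^ ((wt v : ℝ) / 2))
    (f : MvPolynomial V ℤ) :
    ∃ σ : ℝ, ∀ s : ℂ, σ < s.re → LPoly N A f s = Complex.exp (D (mf N A f) s) := by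
  obtain ⟨a, ha⟩ := norm_monomial h f
  obtain ⟨σ, hσ⟩ := euler_weil_tprod N (fun t : f.support => f.coeff t.1)
    (fun p t => ∏ v, A p v ^ t.1 v) a ha (mf N A f) (mf_pow N A f)
  refine ⟨σ, fun s hs => ?_⟩
  rw [← hσ s hs]
  unfold LPoly
  refine tprod_congr fun p => ?_
  rw [← Finset.prod_coe_sort f.support]

/-- the function attached to the block of weight `w` -/
lemma lweight_eq {N : ℕ} {J : Type} [Fintype J] {A : ℕ → J → ℂ} {wt : J → ℕ}
    (h : ∀ p : ℕ, p.Prime → ¬ p ∣ N → ∀ v, ‖A p v‖ = (p : ℝ) ^ ((wt v : ℝ) / 2)) (w : ℕ) :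
    ∃ σ : ℝ, ∀ s : ℂ, σ < s.re → LWeight N wt A w s =
      Complex.exp (D (mf N A (∑ j ∈ Finset.univ.filter (fun j => wt j = w), MvPolynomial.X j)) s) := by
  obtain ⟨σ, hσ⟩ := euler_block_tprod N
    (fun p (t : Finset.univ.filter (fun j => wt j = w)) => A p t.1) w (by
      intro p hp hN t
      have hp1 : (1 : ℝ) ≤ p := by exact_mod_cast hp.one_lt.le
      rw [h p hp hN, (Finset.mem_filter.1 t.2).2, ← Real.rpow_natCast]
      refine Real.rpow_le_rpow_of_exponent_le hp1 ?_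
      have : (0 : ℝ) ≤ w := Nat.cast_nonneg _
      linarith)
    (mf N A (∑ j ∈ Finset.univ.filter (fun j => wt j = w), MvPolynomial.X j)) (by
      intro p k hp hk
      unfold mf
      by_cases hN : p ∣ N
      · rw [if_neg (not_good hp hN hk), if_pos hN]
      · rw [if_pos (good_iff.2 ⟨p, k, hp, hN, hk, rfl⟩), if_neg hN, MvPolynomial.eval₂_sum,
          ← Finset.sum_coe_sort (Finset.univ.filter (fun j => wt j = w))]
        refine Finset.sum_congr rfl fun t _ => ?_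
        rw [MvPolynomial.eval₂_X, alph_pow A _ hp hk])
  refine ⟨σ, fun s hs => ?_⟩
  rw [← hσ s hs]
  unfold LWeight
  refine tprod_congr fun p => ?_
  rw [← Finset.prod_coe_sort (Finset.univ.filter (fun j => wt j = w))]

end Pool.Agent.HW4
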