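import Pool.Agent.HW4.Sig
import Pool.Agent.HW.Fund

/-!
# Symmetric polynomials in the Weil numbers lie in the completed ring
-/

set_option autoImplicit false

open AlgebraicGeometry
open Pool.Agent.Helper29.Zeta Pool.Agent.HW Pool.Agent.HW3

namespace Pool.Agent.HW4

lemma isFT_of {X : Scheme.{0}} (h : FiniteTypeZ X) : Pool.Agent.Helper81.CP.IsFT X := h

/-- the counting function of a pure scheme -/
lemma weil_of_weights {N : ℕ} {X : Scheme.{0}} {J : Type} [Fintype J] {wt : J → ℕ}
    {A : ℕ → J → ℂ} (h : Weights N X wt A) : Weil N (fun n => (ptCount X n : ℂ)) wt A where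
  norm := h.norm
  bad p k hp hN hk := by
    have hpk : IsPrimePow (p ^ k) := hp.isPrimePow.pow hk.ne'
    have h1 := h.points p k (FF (p ^ k)) hp hk (card_FF hpk)
    rw [if_pos hN] at h1
    exact h1
  good p k hp hN hk := by
    have hpk : IsPrimePow (p ^ k) := hp.isPrimePow.pow hk.ne'
    have h1 := h.points p k (FF (p ^ k)) hp hk (card_FF hpk)
    rw [if_neg hN] at h1
    exact h1

section

variable {N : ℕ} {P : (ℕ → ℂ) → Prop} [Closed N P]

/-- the coefficients of the generating function of the symmetric powers -/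
lemma hat_sym {c : ℕ → ℂ} (hc : Hat N P c) {J : Type}
    [Fintype J] {wt : J → ℕ} {A : ℕ → J → ℂ} (h : Weil N c wt A) (m : ℕ) :
    Hat N P fun n => PowerSeries.coeff m (∏ j, fac (wt j) (alph A j n)) := by
  refine (hc.sg m).congr fun n hn => ?_
  obtain ⟨p, k, hp, hN, hk, rfl⟩ := good_iff.1 hn
  have hLD : LD (∏ j, fac (wt j) (alph A j (p ^ k)))
      (fun l => ∑ j, (-1) ^ wt j * (alph A j (p ^ k)) ^ l) :=
    LD.prod Finset.univ fun j _ => LD_fac (wt j) (alph A j (p ^ k))
  rw [← hsum_eq hLD m]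
  refine hsum_congr (fun l hl => ?_) m
  rw [← pow_mul, h.good p _ hp hN (Nat.mul_pos hk hl)]
  refine Finset.sum_congr rfl fun j _ => ?_
  rw [alph_pow A j hp hk, pow_mul]

lemma hat_int (z : ℤ) : Hat N P (fun _ => (z : ℂ)) := by
  have h1 : ∀ m : ℕ, Hat N P (fun _ => (m : ℂ)) := by
    intro m
    induction m with
    | zero => simpa using (Hat.of_vir Vir.zero : Hat N P fun _ => 0)
    | succ m ih =>
      refine (ih.add Hat.one).congr (fun n _ => ?_)
      push_cast; rfl
  rcases Int.eq_nat_or_neg z with ⟨m, rfl | rfl⟩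
  · simpa using h1 m
  · refine (h1 m).neg.congr (fun n _ => ?_)
    push_cast; rfl

variable {I : Type} [Fintype I] {c : I → ℕ → ℂ} {J : I → Type} [∀ i, Fintype (J i)]
  {wt : ∀ i, J i → ℕ} {A : ∀ i, ℕ → J i → ℂ}

/-- the Weil numbers of a family -/
def fam (A : ∀ i, ℕ → J i → ℂ) (p : ℕ) (v : Σ i, J i) : ℂ := A v.1 p v.2

/-- `f` is invariant under the permutations of the eigenvalues of each scheme and weight -/
def Sym {I : Type} {J : I → Type} (wt : ∀ i, J i → ℕ) (f : MvPolynomial (Σ i, J i) ℤ) : Prop :=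
  ∀ g : Equiv.Perm (Σ i, J i), (∀ v, (g v).1 = v.1 ∧ wt (g v).1 (g v).2 = wt v.1 v.2) →
    MvPolynomial.rename g f = f

open Classical in
lemma hat_block (hW : ∀ i, Weil N (c i) (wt i) (A i)) (hc : ∀ i, Hat N P (c i))
    (b : I × ℕ) (m : ℕ) :
    Hat N P (mf N (fam A) (blockE (fun v : Σ i, J i => (v.1, wt v.1 v.2)) b m)) := by
  obtain ⟨i, w⟩ := b
  have key := esymm_mem (hsys N P) (hW i) (hat_sym (hc i) (hW i)) w m
  refine key.congr (fun n hn => ?_)
  unfold mf
  rw [if_pos hn]
  unfold blockE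
  rw [MvPolynomial.eval₂_sum]
  have hf : (Finset.univ.filter (fun v : Σ i, J i => (v.1, wt v.1 v.2) = (i, w))) =
      (Finset.univ.filter (fun j => wt i j = w)).map (Function.Embedding.sigmaMk i) := by
    ext ⟨i', j⟩
    simp only [Finset.mem_filter, Finset.mem_univ, true_and, Finset.mem_map, Prod.mk.injEq,
      Function.Embedding.sigmaMk_apply]
    constructor
    · rintro ⟨rfl, h⟩
      exact ⟨j, h, rfl⟩
    · rintro ⟨j', h, e⟩
      obtain ⟨rfl, e⟩ := Sigma.mk.inj_iff.1 e
      rw [heq_eq_eq] at e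
      subst e
      exact ⟨rfl, h⟩
  rw [hf, Finset.powersetCard_map, Finset.sum_map]
  refine Finset.sum_congr rfl fun T _ => ?_
  show _ = MvPolynomial.eval₂ _ _ (∏ v ∈ T.map (Function.Embedding.sigmaMk i), MvPolynomial.X v)
  rw [Finset.prod_map, MvPolynomial.eval₂_prod]
  refine Finset.prod_congr rfl fun j _ => ?_
  rw [MvPolynomial.eval₂_X]
  rfl

/-- symmetric polynomials -/
theorem hat_mf (hW : ∀ i, Weil N (c i) (wt i) (A i)) (hc : ∀ i, Hat N P (c i))
    (f : MvPolynomial (Σ i, J i) ℤ) (hf : Sym wt f) :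
    Hat N P (mf N (fam A) f) := by
  classical
  have hmem := fund (fun v : Σ i, J i => (v.1, wt v.1 v.2)) f (by
    intro s hs'
    refine hf s fun v => ?_
    have := hs' v
    rw [Prod.mk.injEq] at this
    exact this)
  clear hf
  induction hmem using Algebra.adjoin_induction with
  | mem x hx =>
    obtain ⟨b, m, rfl⟩ := hx
    have h1 := hat_block hW hc b m
    refine h1.congr fun n hn => ?_
    unfold mf
    rw [if_pos hn]
  | algebraMap z =>
    refine (hat_int z).congr (fun n hn => ?_)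
    unfold mf
    rw [if_pos hn]
    exact (map_intCast (MvPolynomial.eval₂Hom (Int.castRingHom ℂ)
      (fun v => alph (fam A) v n)) z).symm
  | add x y _ _ hx hy =>
    refine (hx.add hy).congr (fun n hn => ?_)
    unfold mf
    rw [if_pos hn, if_pos hn, if_pos hn, MvPolynomial.eval₂_add]
  | mul x y _ _ hx hy =>
    refine (hx.mul hy).congr (fun n hn => ?_)
    unfold mf
    rw [if_pos hn, if_pos hn, if_pos hn, MvPolynomial.eval₂_mul]

end

end Pool.Agent.HW4
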