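import Pool.Agent.HW4.Asm2
import Pool.Agent.HW.Brg

/-!
# The equivalence, for an abstract completed ring
-/

set_option autoImplicit false

open AlgebraicGeometry
open Pool.Agent.Helper29.Zeta Pool.Agent.HW Pool.Agent.HW3

namespace Pool.Agent.HW4

lemma zeta_eq_zetaProd (X : Scheme.{0}) (s : ℂ) : zeta X s = zetaProd X s := rfl

lemma continues_of_mero {c : ℕ → ℂ} (h : Mero c) {L : ℂ → ℂ}
    (hL : ∃ σ : ℝ, ∀ s : ℂ, σ < s.re → L s = Complex.exp (D c s)) : Continues L := by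
  obtain ⟨F, hF, σ, hσ⟩ := h
  obtain ⟨τ, hτ⟩ := hL
  refine ⟨F, hF, max σ τ, fun s hs => ?_⟩
  rw [hσ s (lt_of_le_of_lt (le_max_left _ _) hs), hτ s (lt_of_le_of_lt (le_max_right _ _) hs)]

lemma mero_of_continues {c : ℕ → ℂ} {L : ℂ → ℂ} (h : Continues L)
    (hL : ∃ σ : ℝ, ∀ s : ℂ, σ < s.re → L s = Complex.exp (D c s)) : Mero c := by
  obtain ⟨F, hF, σ, hσ⟩ := h
  obtain ⟨τ, hτ⟩ := hL
  refine ⟨F, hF, max σ τ, fun s hs => ?_⟩
  rw [hσ s (lt_of_le_of_lt (le_max_left _ _) hs), hτ s (lt_of_le_of_lt (le_max_right _ _) hs)]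

/-- the schemes whose numbers of points over finite fields are given by a function in `P` -/
def InClass (P : (ℕ → ℂ) → Prop) (Y : Scheme.{0}) : Prop :=
  FiniteTypeZ Y ∧ ∃ c : ℕ → ℂ, P c ∧ ∀ (K : Type) [Field K] [Finite K],
    (Nat.card (Spec (CommRingCat.of K) ⟶ Y) : ℂ) = c (Nat.card K)

/-- a function of the class `Cl` is the counting function of a scheme -/
lemma exists_cl {N : ℕ} {P : (ℕ → ℂ) → Prop} {c : ℕ → ℂ} (hc : Cl N P c) :
    ∃ Y : Scheme.{0}, InClass P Y ∧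
    ∃ σ : ℝ, ∀ s : ℂ, σ < s.re → zeta Y s = Complex.exp (D c s) := by
  obtain ⟨R, _, h3, h4, h5⟩ := exists_scheme_count hc.1
  exact ⟨Spec (CommRingCat.of R), ⟨h3, c, hc.2, fun K _ _ => (h4 K).symm⟩, h5⟩

lemma InClass.pure {N : ℕ} {P : (ℕ → ℂ) → Prop} {Y : Scheme.{0}} (h : InClass (PP N P) Y) :
    Pure N Y ∧ InClass P Y := by
  obtain ⟨h3, c, ⟨⟨J, _, wt, A, h2⟩, hP⟩, h4⟩ := h
  refine ⟨⟨J, inferInstance, wt, A, h3, h2.norm, ?_⟩, h3, c, hP, h4⟩
  intro p k K _ hp hk hK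
  have hfin : Finite K := Nat.finite_of_card_ne_zero (by rw [hK]; exact (pow_pos hp.pos k).ne')
  rw [h4 K, hK]
  split_ifs with hN
  · exact h2.bad p k hp hN hk
  · exact h2.good p k hp hN hk

lemma zeta_ptCount {X : Scheme.{0}} (hX : FiniteTypeZ X) :
    ∃ σ : ℝ, ∀ s : ℂ, σ < s.re →
      zeta X s = Complex.exp (D (fun n => (ptCount X n : ℂ)) s) := zeta_scheme hX

variable {N : ℕ}

lemma norm_fam {I : Type} [Fintype I] {c : I → ℕ → ℂ} {J : I → Type} [∀ i, Fintype (J i)]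
    {wt : ∀ i, J i → ℕ} {A : ∀ i, ℕ → J i → ℂ} (hW : ∀ i, Weil N (c i) (wt i) (A i)) :
    ∀ p : ℕ, p.Prime → ¬ p ∣ N → ∀ v : Σ i, J i,
      ‖fam A p v‖ = (p : ℝ) ^ ((((fun v : Σ i, J i => wt v.1 v.2) v : ℕ) : ℝ) / 2) :=
  fun p hp hN v => (hW v.1).norm p hp hN v.2

lemma mf_bad {V : Type} [Fintype V] (A : ℕ → V → ℂ) (f : MvPolynomial V ℤ) (n : ℕ)
    (h : ¬ Good N n) : mf N A f n = 0 := if_neg h

/-- (2) implies (1) -/
lemma two_one
    (h : ∀ (X : Scheme.{0}) (J : Type) [Fintype J] (wt : J → ℕ) (A : ℕ → J → ℂ),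
      Weights N X wt A → ∀ w, Continues (LWeight N wt A w))
    (X : Scheme.{0}) (hX : Pure N X) : Continues (zeta X) := by
  obtain ⟨J, _, wt, A, hW⟩ := hX
  refine continues_of_mero ?_ (zeta_ptCount hW.finite_type)
  obtain ⟨W, hWt⟩ : ∃ W, ∀ j, wt j < W :=
    ⟨Finset.univ.sup wt + 1, fun j => Nat.lt_succ_of_le (Finset.le_sup (Finset.mem_univ j))⟩
  let g : ℕ → MvPolynomial J ℤ := fun w =>
    ∑ j ∈ Finset.univ.filter (fun j => wt j = w), MvPolynomial.X j
  have hg : ∀ w, Mero (mf N A (g w)) := fun w =>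
    mero_of_continues (h X J wt A hW w) (lweight_eq hW.norm w)
  have hgr : ∀ w, Growth (mf N A (g w)) := fun w => growth_mf hW.norm (g w)
  have key : ∀ W : ℕ, Growth (fun n => ∑ w ∈ Finset.range W, (-1) ^ w * mf N A (g w) n) ∧
      Mero (fun n => ∑ w ∈ Finset.range W, (-1) ^ w * mf N A (g w) n) := by
    intro W
    induction W with
    | zero =>
      refine ⟨by simpa using Growth.const 0, ?_⟩
      have h1 := (hg 0).sub (hgr 0) (hgr 0) (hg 0)
      simpa using h1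
    | succ W ih =>
      simp only [Finset.sum_range_succ]
      rcases Nat.even_or_odd W with hW' | hW'
      · simp only [hW'.neg_one_pow, one_mul]
        exact ⟨ih.1.add (hgr W), ih.2.add ih.1 (hgr W) (hg W)⟩
      · simp only [hW'.neg_one_pow, neg_one_mul]
        refine ⟨ih.1.add (hgr W).neg, ih.2.add ih.1 (hgr W).neg (hg W).neg⟩
  refine (key W).2.congr fun n hn => ?_
  obtain ⟨p, k, hp, hk, rfl⟩ := hn
  have hp' := hp.nat_prime
  have hw := (weil_of_weights hW)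
  by_cases hN : p ∣ N
  · rw [hw.bad p k hp' hN hk]
    refine Finset.sum_eq_zero fun w _ => ?_
    rw [mf_bad A _ _ (not_good hp' hN hk), mul_zero]
  · rw [hw.good p k hp' hN hk]
    have h1 : ∀ w, mf N A (g w) (p ^ k) = ∑ j ∈ Finset.univ.filter (fun j => wt j = w), A p j ^ k := by
      intro w
      unfold mf
      rw [if_pos (good_iff.2 ⟨p, k, hp', hN, hk, rfl⟩), MvPolynomial.eval₂_sum]
      refine Finset.sum_congr rfl fun j _ => ?_
      rw [MvPolynomial.eval₂_X, alph_pow A j hp' hk]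
    simp only [h1]
    have h2 : ∀ w ∈ Finset.range W, (-1 : ℂ) ^ w *
        ∑ j ∈ Finset.univ.filter (fun j => wt j = w), A p j ^ k =
        ∑ j ∈ Finset.univ.filter (fun j => wt j = w), (-1) ^ wt j * A p j ^ k := by
      intro w _
      rw [Finset.mul_sum]
      refine Finset.sum_congr rfl fun j hj => ?_
      rw [(Finset.mem_filter.1 hj).2]
    rw [Finset.sum_congr rfl h2]
    exact Finset.sum_fiberwise_of_maps_to (fun j _ => Finset.mem_range.2 (hWt j))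
      (fun j => (-1) ^ wt j * A p j ^ k)

end Pool.Agent.HW4
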