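import Pool.Agent.HW4.Fin

/-!
# The equivalence, for an abstract completed ring: the remaining implications
-/

set_option autoImplicit false

open AlgebraicGeometry
open Pool.Agent.Helper29.Zeta Pool.Agent.HW Pool.Agent.HW3

namespace Pool.Agent.HW4

variable {N : ℕ}

/-- the sum of the variables of weight `w` of one scheme -/
noncomputable def pw {J : Type} [Fintype J] (wt : J → ℕ) (w : ℕ) :
    MvPolynomial (Σ _ : Unit, J) ℤ :=
  ∑ j ∈ Finset.univ.filter (fun j => wt j = w), MvPolynomial.X ⟨(), j⟩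

lemma sym_pw {J : Type} [Fintype J] (wt : J → ℕ) (w : ℕ) :
    Sym (J := fun _ : Unit => J) (fun _ => wt) (pw wt w) := by
  classical
  intro g hg
  unfold pw
  rw [map_sum]
  have e1 : ∀ P : (Σ _ : Unit, J) → MvPolynomial (Σ _ : Unit, J) ℤ,
      ∑ j ∈ Finset.univ.filter (fun j => wt j = w), P ⟨(), j⟩ =
      ∑ v ∈ Finset.univ.filter (fun v : Σ _ : Unit, J => wt v.2 = w), P v := by
    intro P
    refine Finset.sum_bij' (fun j _ => (⟨(), j⟩ : Σ _ : Unit, J)) (fun v _ => v.2) ?_ ?_ ?_ ?_ ?_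
    · intro j hj
      simpa using hj
    · intro v hv
      simpa using hv
    · intro j _; rfl
    · intro v _; rfl
    · intro j _; rfl
  have e2 := e1 (fun v => MvPolynomial.rename g (MvPolynomial.X v))
  have e3 := e1 (fun v => MvPolynomial.X v)
  rw [e2, e3]
  refine Finset.sum_bij (fun v _ => g v) ?_ ?_ ?_ ?_
  · intro v hv
    rw [Finset.mem_filter] at hv ⊢
    exact ⟨Finset.mem_univ _, (show wt (g v).2 = wt v.2 from (hg v).2).trans hv.2⟩
  · intro v _ v' _ h
    exact g.injective h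
  · intro v hv
    refine ⟨g.symm v, ?_, g.apply_symm_apply v⟩
    rw [Finset.mem_filter] at hv ⊢
    refine ⟨Finset.mem_univ _, ?_⟩
    have := (hg (g.symm v)).2
    rw [g.apply_symm_apply] at this
    exact (show wt v.2 = wt (g.symm v).2 from this).symm.trans hv.2
  · intro v _
    rw [MvPolynomial.rename_X]

lemma mf_pw {J : Type} [Fintype J] (wt : J → ℕ) (A : ℕ → J → ℂ) (w n : ℕ) :
    mf N (fam (J := fun _ : Unit => J) (fun _ => A)) (pw wt w) n =
      mf N A (∑ j ∈ Finset.univ.filter (fun j => wt j = w), MvPolynomial.X j) n := by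
  unfold mf
  split_ifs
  · unfold pw
    rw [MvPolynomial.eval₂_sum, MvPolynomial.eval₂_sum]
    refine Finset.sum_congr rfl fun j _ => ?_
    rw [MvPolynomial.eval₂_X, MvPolynomial.eval₂_X]
    rfl
  · rfl

/-- (3) implies (2) -/
lemma three_two
    (h : ∀ (I : Type) [Fintype I] (X : I → Scheme.{0}) (J : I → Type) [∀ i, Fintype (J i)]
      (wt : ∀ i, J i → ℕ) (A : ∀ i, ℕ → J i → ℂ), (∀ i, Weights N (X i) (wt i) (A i)) →
      ∀ f : MvPolynomial (Σ i, J i) ℤ, Sym wt f → Continues (LPoly N (fam A) f))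
    (X : Scheme.{0}) (J : Type) [Fintype J] (wt : J → ℕ) (A : ℕ → J → ℂ)
    (hW : Weights N X wt A) (w : ℕ) : Continues (LWeight N wt A w) := by
  have hW' : ∀ i : Unit, Weights N X wt A := fun _ => hW
  have h1 := h Unit (fun _ => X) (fun _ => J) (fun _ => wt) (fun _ => A) hW' (pw wt w) (sym_pw wt w)
  have h2 := mero_of_continues h1 (lpoly_eq
    (norm_fam (I := Unit) (J := fun _ => J) (wt := fun _ => wt)
      (A := fun _ => A) (fun i => weil_of_weights (hW' i))) (pw wt w))
  have h3 := h2.congr (c' := mf N A (∑ j ∈ Finset.univ.filter (fun j => wt j = w),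
    MvPolynomial.X j)) (fun n _ => mf_pw wt A w n)
  exact continues_of_mero h3 (lweight_eq hW.norm w)

end Pool.Agent.HW4
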