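import Pool.Agent.HW4.Hat

/-!
# The factorisation theorem in the completed ring
-/

set_option autoImplicit false

open PowerSeries
open Pool.Agent.Helper29.Zeta Pool.Agent.HW Pool.Agent.HW3

namespace Pool.Agent.HW4

variable {N : ℕ} {P : (ℕ → ℂ) → Prop} [Closed N P]

lemma Hat.congr {c c' : ℕ → ℂ} (h : Hat N P c) (hc : ∀ n, Good N n → c n = c' n) : Hat N P c' :=
  fun x => (h x).congr hc

lemma Hat.add {c c' : ℕ → ℂ} (h : Hat N P c) (h' : Hat N P c') : Hat N P (fun n => c n + c' n) :=
  fun x => (h x).add (h' x)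

lemma Hat.neg {c : ℕ → ℂ} (h : Hat N P c) : Hat N P (fun n => - c n) := fun x => (h x).neg

lemma Hat.one : Hat N P (fun _ => 1) := Hat.of_vir Vir.one

/-- counting functions have polynomial size -/
lemma Cl.bd {c : ℕ → ℂ} (h : Cl N P c) : ∃ a : ℝ, 0 ≤ a ∧ Bd N a c := by
  obtain ⟨C, a, hC⟩ := h.1.growth
  refine ⟨a, Nat.cast_nonneg a, C, fun n hn => ?_⟩
  rw [Real.rpow_natCast]
  exact hC n hn.1

lemma Vir.bd {c : ℕ → ℂ} (h : Vir N P c) : ∃ a : ℝ, 0 ≤ a ∧ Bd N a c := by
  obtain ⟨a, b, j, ha, hb, h⟩ := h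
  obtain ⟨x, hx, hax⟩ := ha.bd
  obtain ⟨y, hy, hby⟩ := hb.bd
  refine ⟨max x y, le_max_of_le_left hx, ?_⟩
  obtain ⟨C, hC⟩ := (hax.mono (le_max_left x y)).add (hby.mono (le_max_right x y)).neg
  refine ⟨C, fun n hn => ?_⟩
  have hn1 : (1 : ℝ) ≤ n := by exact_mod_cast hn.pos
  refine le_trans ?_ (hC n hn)
  have h1 : ‖(n : ℂ) ^ j * c n‖ = ‖a n + - b n‖ := by rw [h n hn]; ring_nf
  rw [← h1, norm_mul, norm_pow, Complex.norm_natCast]
  exact le_mul_of_one_le_left (norm_nonneg _) (one_le_pow₀ hn1)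

lemma Hat.bd {c : ℕ → ℂ} (h : Hat N P c) : ∃ a : ℝ, 0 ≤ a ∧ Bd N a c := by
  obtain ⟨r, hr, hb⟩ := h 0
  obtain ⟨a, ha, hra⟩ := hr.bd
  refine ⟨a, ha, (hra.add (hb.mono ha)).congr fun n _ => ?_⟩
  ring

lemma Hat.mul {c c' : ℕ → ℂ} (h : Hat N P c) (h' : Hat N P c') : Hat N P (fun n => c n * c' n) := by
  intro z
  obtain ⟨a, ha, hca⟩ := h.bd
  obtain ⟨b, hb, hcb⟩ := h'.bd
  refine App.mul (x := min a (z - b)) (y := z - a) (a := a) (b := b) (h _) (h' _) hca hcb
    (min_le_left _ _) ?_ (by linarith)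
  have := min_le_right a (z - b)
  linarith

section weier

variable {w b : ℕ} {F E U : ℕ → PowerSeries ℂ}

/-- the induction -/
lemma weier_aux (hF : ∀ n, Good N n → F n = E n * U n)
    (hH : ∀ m, Hat N P fun n => coeff m (F n))
    (hU0 : ∀ n, Good N n → coeff 0 (U n) = 1)
    (hEb : ∀ m, b < m → ∀ n, Good N n → coeff m (E n) = 0)
    (hE : BS N w E) (hU : BS N (w - 1) U)
    (htop : ∀ n, Good N n → ‖coeff b (E n)‖ = (n : ℝ) ^ ((w : ℝ) * b / 2)) (K : ℕ) :
    (∀ j : ℕ, App N P ((w : ℝ) * j / 2 - (K : ℝ) / 2) (fun n => coeff j (E n))) ∧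
      ∀ m : ℕ, 0 < m → App N P ((w : ℝ) * m / 2 - (K : ℝ) / 2) (fun n => coeff m (U n)) := by
  have hBE : ∀ j : ℕ, Bd N ((w : ℝ) * j / 2) (fun n => coeff j (E n)) := hE
  have hBU : ∀ m : ℕ, Bd N (((w : ℝ) - 1) * m / 2) (fun n => coeff m (U n)) := hU
  have hBU' : ∀ m : ℕ, 0 < m → Bd N ((w : ℝ) * m / 2 - 1 / 2) (fun n => coeff m (U n)) := by
    intro m hm
    refine (hBU m).mono ?_
    have : (1 : ℝ) ≤ m := by exact_mod_cast hm
    linarith
  induction K with
  | zero =>
    refine ⟨fun j => App.of_bd ((hBE j).mono (by simp)), fun m hm =>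
      App.of_bd ((hBU' m hm).mono ?_)⟩
    push_cast; linarith
  | succ K ih =>
    obtain ⟨ihE, ihU⟩ := ih
    -- the inverse of the top coefficient
    have hinvA : App N P (-((w : ℝ) * b / 2) - (K : ℝ) / 2)
        (fun n => (starRingEnd ℂ) (coeff b (E n)) / (n : ℂ) ^ (w * b)) := by
      refine ((ihE b).conj.div (w * b)).mono (le_of_eq ?_)
      push_cast; ring
    have hinvB : Bd N (-((w : ℝ) * b / 2))
        (fun n => (starRingEnd ℂ) (coeff b (E n)) / (n : ℂ) ^ (w * b)) := by
      refine ((hBE b).conj.div (w * b)).mono (le_of_eq ?_)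
      push_cast; ring
    have hinv : ∀ n, Good N n →
        (starRingEnd ℂ) (coeff b (E n)) / (n : ℂ) ^ (w * b) * coeff b (E n) = 1 := by
      intro n hn
      have hn0 : (0 : ℝ) < n := by exact_mod_cast hn.pos
      have hn1 : (n : ℂ) ^ (w * b) ≠ 0 := pow_ne_zero _ (by exact_mod_cast hn.pos.ne')
      rw [div_mul_eq_mul_div, mul_comm ((starRingEnd ℂ) _), Complex.mul_conj,
        Complex.normSq_eq_norm_sq, htop n hn, ← Real.rpow_natCast, ← Real.rpow_mul hn0.le]
      have : (w : ℝ) * b / 2 * ((2 : ℕ) : ℝ) = ((w * b : ℕ) : ℝ) := by push_cast; ring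
      rw [this, Real.rpow_natCast]
      push_cast
      exact div_self hn1
    -- products
    have hprod : ∀ j m : ℕ, 0 < m →
        App N P ((w : ℝ) * m / 2 - ((K + 1 : ℕ) : ℝ) / 2) (fun n => coeff m (U n)) →
        App N P ((w : ℝ) * (j + m : ℕ) / 2 - ((K + 1 : ℕ) : ℝ) / 2)
          (fun n => coeff j (E n) * coeff m (U n)) := by
      intro j m hm hA
      have hK0 : (0 : ℝ) ≤ K := Nat.cast_nonneg K
      refine App.mul (ihE j) hA (hBE j) (hBU' m hm) (by linarith) ?_ ?_
      · push_cast; linarith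
      · push_cast; linarith
    -- the coefficients of `U`
    have hUstep : ∀ d m : ℕ, 0 < m → K + 1 ≤ m + d →
        App N P ((w : ℝ) * m / 2 - ((K + 1 : ℕ) : ℝ) / 2) (fun n => coeff m (U n)) := by
      intro d
      induction d with
      | zero =>
        intro m hm hd
        refine App.of_bd ((hBU m).mono ?_)
        have : ((K + 1 : ℕ) : ℝ) ≤ m := by exact_mod_cast (by omega : K + 1 ≤ m)
        linarith
      | succ d ihd =>
        intro m hm hd
        have hG : App N P ((w : ℝ) * (m + b : ℕ) / 2 - ((K + 1 : ℕ) : ℝ) / 2)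
            (fun n => coeff b (E n) * coeff m (U n)) := by
          have h1 : App N P ((w : ℝ) * (m + b : ℕ) / 2 - ((K + 1 : ℕ) : ℝ) / 2)
              (fun n => coeff (m + b) (F n) + - ∑ j ∈ Finset.range b,
                coeff j (E n) * coeff (m + b - j) (U n)) := by
            refine ((hH (m + b)) _).add (App.neg (App.sum _ fun j hj => ?_))
            rw [Finset.mem_range] at hj
            have h2 := hprod j (m + b - j) (by omega) (ihd (m + b - j) (by omega) (by omega))
            rw [show j + (m + b - j) = m + b by omega] at h2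
            exact h2
          refine h1.congr fun n hn => ?_
          rw [hF n hn, coeff_mul, Finset.Nat.sum_antidiagonal_eq_sum_range_succ
            (fun i j => coeff i (E n) * coeff j (U n))]
          have h3 : ∑ k ∈ Finset.range (m + b).succ, coeff k (E n) * coeff (m + b - k) (U n) =
              ∑ k ∈ Finset.range (b + 1), coeff k (E n) * coeff (m + b - k) (U n) := by
            symm
            refine Finset.sum_subset (fun k hk => ?_) (fun k _ hk => ?_)
            · rw [Finset.mem_range] at hk ⊢; omega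
            · rw [Finset.mem_range] at hk
              rw [hEb k (by omega) n hn, zero_mul]
          rw [h3, Finset.sum_range_succ, show m + b - b = m by omega]
          ring
        have hGB : Bd N ((w : ℝ) * (m + b : ℕ) / 2 - 1 / 2)
            (fun n => coeff b (E n) * coeff m (U n)) := by
          refine ((hBE b).mul (hBU' m hm)).mono (le_of_eq ?_)
          push_cast; ring
        have hK0 : (0 : ℝ) ≤ K := Nat.cast_nonneg K
        have h4 := App.mul (z := (w : ℝ) * m / 2 - ((K + 1 : ℕ) : ℝ) / 2) hinvA hG hinvB hGB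
          (by linarith) (by push_cast; linarith) (by push_cast; linarith)
        refine h4.congr fun n hn => ?_
        rw [← mul_assoc, hinv n hn, one_mul]
    have hU' : ∀ m : ℕ, 0 < m →
        App N P ((w : ℝ) * m / 2 - ((K + 1 : ℕ) : ℝ) / 2) (fun n => coeff m (U n)) :=
      fun m hm => hUstep (K + 1) m hm (by omega)
    refine ⟨fun j => ?_, hU'⟩
    have h1 : App N P ((w : ℝ) * j / 2 - ((K + 1 : ℕ) : ℝ) / 2)
        (fun n => coeff j (F n) + - ∑ i ∈ Finset.range j,
          coeff i (E n) * coeff (j - i) (U n)) := by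
      refine ((hH j) _).add (App.neg (App.sum _ fun i hi => ?_))
      rw [Finset.mem_range] at hi
      have h2 := hprod i (j - i) (by omega) (hU' (j - i) (by omega))
      rw [show i + (j - i) = j by omega] at h2
      exact h2
    refine h1.congr fun n hn => ?_
    rw [hF n hn, coeff_mul, Finset.Nat.sum_antidiagonal_eq_sum_range_succ
      (fun i j => coeff i (E n) * coeff j (U n)), Finset.sum_range_succ, Nat.sub_self,
      hU0 n hn]
    ring

end weier

/-- the completed ring satisfies the factorisation theorem -/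
theorem hsys (N : ℕ) (P : (ℕ → ℂ) → Prop) [Closed N P] : HSys N (Hat N P) where
  congr _ _ hc h := h.congr hc
  one := Hat.one
  add _ _ h h' := h.add h'
  neg _ h := h.neg
  mul _ _ h h' := h.mul h'
  weier := by
    intro w b F E U hF hH hE0 hU0 hEb htop hE hU
    have key := weier_aux hF hH hU0 hEb hE hU htop
    have hlim : ∀ (x : ℝ) (j : ℕ), ∃ K : ℕ, (w : ℝ) * j / 2 - (K : ℝ) / 2 ≤ x := by
      intro x j
      obtain ⟨K, hK⟩ := exists_nat_ge ((w : ℝ) * j - 2 * x)
      exact ⟨K, by linarith⟩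
    refine ⟨fun j x => ?_, fun m x => ?_⟩
    · obtain ⟨K, hK⟩ := hlim x j
      exact ((key K).1 j).mono hK
    · rcases Nat.eq_zero_or_pos m with rfl | hm
      · exact App.congr (Hat.one x) fun n hn => (hU0 n hn).symm
      · obtain ⟨K, hK⟩ := hlim x m
        exact ((key K).2 m hm).mono hK

lemma hat_of_cl {c : ℕ → ℂ} (h : Cl N P c) : Hat N P c := Hat.of_vir (Vir.of_cl h)

end Pool.Agent.HW4
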