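import Pool.Agent.HW4.Fin3
import Pool.Agent.HW.Built

/-!
# The schemes built from a family
-/

set_option autoImplicit false

open AlgebraicGeometry
open Pool.Agent.Helper29.Zeta Pool.Agent.HW Pool.Agent.HW3

namespace Pool.Agent.HW4

/-- the functions which agree on the prime powers with a function built from the family -/
def BuiltP (N : ℕ) {I : Type} (X : I → Scheme.{0}) (c : ℕ → ℂ) : Prop :=
  ∃ c0, HW3.Built N X c0 ∧ ∀ n, IsPrimePow n → c n = c0 n

lemma range_Icc (m : ℕ) (φ : ℕ → ℂ) :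
    ∑ l ∈ Finset.range m, φ (l + 1) = ∑ l ∈ Finset.Icc 1 m, φ l := by
  rw [Finset.range_eq_Ico, Finset.sum_Ico_add' φ 0 m 1]
  rfl

instance builtClosed (N : ℕ) {I : Type} (X : I → Scheme.{0}) : Closed N (BuiltP N X) where
  congr c c' h := by
    rintro ⟨c0, h0, h1⟩
    exact ⟨c0, h0, fun n hn => (h n hn).trans (h1 n hn)⟩
  zero := ⟨_, .empty, fun _ _ => rfl⟩
  one := ⟨_, .point, fun _ _ => by unfold HW3.ind; split_ifs <;> rfl⟩
  add c c' := by
    rintro ⟨c0, h0, h1⟩ ⟨c0', h0', h1'⟩
    exact ⟨_, .union _ _ h0 h0', fun n hn => by dsimp only; rw [h1 n hn, h1' n hn]⟩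
  mul c c' := by
    rintro ⟨c0, h0, h1⟩ ⟨c0', h0', h1'⟩
    exact ⟨_, .prod _ _ h0 h0', fun n hn => by dsimp only; rw [h1 n hn, h1' n hn]⟩
  line c := by
    rintro ⟨c0, h0, h1⟩
    exact ⟨_, .line _ h0, fun n hn => by dsimp only; rw [h1 n hn]⟩
  sym c σ := by
    rintro ⟨c0, h0, h1⟩ h2 h3 m
    refine ⟨σ m, .sym c0 σ m h0 (fun n hn => ?_) (fun m n hn => ?_), fun _ _ => rfl⟩
    · rw [h2 n hn]; unfold HW3.ind; split_ifs <;> rfl
    · rw [h3 m n hn, range_Icc m (fun l => c (n ^ l) * σ (m - l) n)]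
      refine Finset.sum_congr rfl fun l hl => ?_
      rw [h1 _ (hn.pow (by have := (Finset.mem_Icc.1 hl).1; omega))]

instance trivClosed (N : ℕ) : Closed N (fun _ => True) where
  congr _ _ _ _ := trivial
  zero := trivial
  one := trivial
  add _ _ _ _ := trivial
  mul _ _ _ _ := trivial
  line _ _ := trivial
  sym _ _ _ _ _ _ := trivial

/-- the family lies in the class -/
lemma builtP_ptCount {N : ℕ} {I : Type} {X : I → Scheme.{0}} (i : I) :
    BuiltP N X (fun n => (HW.ptCount (X i) n : ℂ)) :=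
  ⟨_, .scheme i (fun n => (HW.ptCount (X i) n : ℂ)) (fun K _ _ => by
    dsimp only
    rw [card_points (X i) K]), fun _ _ => rfl⟩

lemma isPoints_iff {Y : Scheme.{0}} {c : ℕ → ℂ} :
    IsPoints Y c ↔ ∀ n, IsPrimePow n → c n = (HW.ptCount Y n : ℂ) := by
  constructor
  · intro h n hn
    have h1 := h (FF n)
    rw [card_points Y (FF n), card_FF hn] at h1
    exact h1
  · intro h K _ _
    have := Fintype.ofFinite K
    rw [h, card_points Y K]
    rw [Nat.card_eq_fintype_card]
    exact FiniteField.isPrimePow_card K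

/-- the functions built from the schemes of the family, with the definition of helper96 -/
lemma built_of_built {N : ℕ} {I : Type} {X : I → Scheme.{0}} {c : ℕ → ℂ}
    (h : HW3.Built N X c) : HW.Built N (fun i n => (HW.ptCount (X i) n : ℂ)) c := by
  induction h with
  | scheme i c hc => exact (HW.Built.base i).congr (fun n hn => isPoints_iff.1 hc n hn)
  | empty => exact .zero
  | point => exact HW.Built.one.congr fun n _ => by unfold HW3.ind; split_ifs <;> rfl
  | union _ _ _ _ ih ih' => exact ih.add ih'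
  | prod _ _ _ _ ih ih' => exact ih.mul ih'
  | line _ _ ih => exact ih.line
  | sym c σ m _ h0 hrec ih =>
    refine HW.Built.sym σ m ih (fun n hn => ?_) (fun n hn m => ?_)
    · rw [h0 n hn]; unfold HW3.ind; split_ifs <;> rfl
    · rw [hrec m n hn, range_Icc m (fun l => c (n ^ l) * σ (m - l) n)]

/-- the point counts of the schemes of the family lie in the completed ring -/
lemma hat_family {N : ℕ} (F : Family N) (P : (ℕ → ℂ) → Prop) [Closed N P]
    (hP : ∀ i, P (fun n => (HW.ptCount (F.X i) n : ℂ))) (i : F.I) :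
    Hat N (PP N P) (fun n => (HW.ptCount (F.X i) n : ℂ)) :=
  hat_of_cl ⟨isCount_ptCount (isFT_of (F.weights i).finite_type),
    ⟨_, inferInstance, _, _, weil_of_weights (F.weights i)⟩, hP i⟩

lemma builtFrom_of_inClass {N : ℕ} (F : Family N) {Y : Scheme.{0}}
    (h : InClass (BuiltP N F.X) Y) : F.BuiltFrom Y := by
  obtain ⟨h1, c, ⟨c0, h2, h3⟩, h4⟩ := h
  refine ⟨h1, c0, h2, fun K _ _ => ?_⟩
  rw [h4 K, h3]
  have := Fintype.ofFinite K
  rw [Nat.card_eq_fintype_card]
  exact FiniteField.isPrimePow_card K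

lemma growth_pow_mul {c : ℕ → ℂ} (k : ℕ) (h : Growth c) : Growth (fun n => (n : ℂ) ^ k * c n) := by
  obtain ⟨C, a, hC⟩ := h
  refine ⟨C, k + a, fun n hn => ?_⟩
  rw [norm_mul, norm_pow, Complex.norm_natCast, pow_add]
  calc (n : ℝ) ^ k * ‖c n‖ ≤ (n : ℝ) ^ k * (C * (n : ℝ) ^ a) :=
        mul_le_mul_of_nonneg_left (hC n hn) (by positivity)
    _ = _ := by ring

/-- the zeta functions of the schemes built from a family continue if the `L`-functions do -/
lemma fam_back {N : ℕ} (F : Family N)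
    (h : ∀ f : MvPolynomial F.V ℤ, F.Symmetric f → Continues (LPoly N F.eig f))
    (Y : Scheme.{0}) (hY : F.BuiltFrom Y) : Continues (zeta Y) := by
  obtain ⟨hft, c, hc, hYc⟩ := hY
  refine continues_of_mero ?_ (zeta_ptCount hft)
  have hw := fun i => weil_of_weights (F.weights i)
  obtain ⟨g, hg, h1, h2⟩ := (built_of_built hc).fam F.wt F.eig
    (fun i p k hp hN hk => (hw i).good p k hp hN hk) (fun i p k hp hN hk => (hw i).bad p k hp hN hk)
  have hm : ∀ k, Mero (mf N F.eig (g.coeff k)) := fun k =>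
    mero_of_continues (h _ (fun s hs => hg s hs k)) (lpoly_eq (norm_fam hw) _)
  have hgr : ∀ k, Growth (mf N F.eig (g.coeff k)) := fun k => growth_mf (norm_fam hw) _
  have key : ∀ K : ℕ,
      Growth (fun n => ∑ k ∈ Finset.range K, (n : ℂ) ^ k * mf N F.eig (g.coeff k) n) ∧
      Mero (fun n => ∑ k ∈ Finset.range K, (n : ℂ) ^ k * mf N F.eig (g.coeff k) n) := by
    intro K
    induction K with
    | zero =>
      refine ⟨by simpa using Growth.const 0, ?_⟩
      have h1 := (hm 0).sub (hgr 0) (hgr 0) (hm 0)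
      simpa using h1
    | succ K ih =>
      simp only [Finset.sum_range_succ]
      have hK : Growth (fun n => (n : ℂ) ^ K * mf N F.eig (g.coeff K) n) := growth_pow_mul K (hgr K)
      exact ⟨ih.1.add hK, ih.2.add ih.1 hK ((hm K).shift_pow K)⟩
  refine (key (g.natDegree + 1)).2.congr fun n hn => ?_
  have e : (HW.ptCount Y n : ℂ) = c n := (isPoints_iff.1 hYc n hn).symm
  rw [e]
  by_cases hgood : Good N n
  · rw [h1 n hgood]
    refine Finset.sum_congr rfl fun k _ => ?_
    unfold mf
    rw [if_pos hgood]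
  · rw [h2 n hn hgood]
    exact Finset.sum_eq_zero fun k _ => by rw [mf_bad _ _ n hgood, mul_zero]

end Pool.Agent.HW4
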