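import Pool.Agent.HW4.Inst

/-!
# From pure schemes to all schemes
-/

set_option autoImplicit false

open AlgebraicGeometry
open Pool.Agent.Helper29.Zeta Pool.Agent.HW Pool.Agent.HW3

namespace Pool.Agent.HW4

/-- the indicator of the powers of the prime `p` -/
lemma isCount_prime {p : ℕ} (hp : p.Prime) : IsCount (fun n => if p ∣ n then 1 else 0) := by
  have hft : Algebra.FiniteType ℤ (ZMod p) :=
    Algebra.FiniteType.of_surjective (Algebra.ofId ℤ (ZMod p)) ZMod.intCast_surjective
  refine (isCount_of (ZMod p)).congr fun n hn => ?_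
  have hz : (n : FF n) = 0 := by
    have := Fintype.ofFinite (FF n)
    have h1 := FiniteField.cast_card_eq_zero (FF n)
    rwa [← Nat.card_eq_fintype_card, card_FF hn] at h1
  split_ifs with h
  · obtain ⟨r, k, hr, hk, rfl⟩ := hn
    have hpr : p = r := (Nat.prime_dvd_prime_iff_eq hp hr.nat_prime).1 (hp.dvd_of_dvd_pow h)
    subst hpr
    have h0 : (p : FF (p ^ k)) = 0 := by
      rw [Nat.cast_pow] at hz
      exact pow_eq_zero_iff hk.ne' |>.1 hz
    have hc : CharP (FF (p ^ k)) p := (CharP.charP_iff_prime_eq_zero hp).2 h0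
    have : Unique (ZMod p →+* FF (p ^ k)) :=
      ⟨⟨ZMod.castHom dvd_rfl _⟩, fun φ => Subsingleton.elim _ _⟩
    rw [Nat.card_unique]
    simp
  · have : IsEmpty (ZMod p →+* FF n) := by
      refine ⟨fun φ => ?_⟩
      have h1 : (p : FF n) = 0 := by
        have h2 : ((p : ZMod p)) = 0 := ZMod.natCast_self p
        have h3 := congrArg φ h2
        rwa [map_natCast, map_zero] at h3
      have h2 : IsCoprime (n : ℤ) (p : ℤ) := Nat.isCoprime_iff_coprime.2
        ((Nat.Prime.coprime_iff_not_dvd hp).2 h).symm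
      obtain ⟨a, b, hab⟩ := h2
      have h3 := congrArg (Int.cast : ℤ → FF n) hab
      push_cast at h3
      rw [hz, h1, mul_zero, mul_zero, zero_add] at h3
      exact zero_ne_one h3
    rw [Nat.card_of_isEmpty]
    simp

/-- the part of characteristic `p` -/
lemma mero_prime (hD : Dwork) {c : ℕ → ℂ} (hc : IsCount c) {p : ℕ} (hp : p.Prime) :
    Mero (fun n => c n * if p ∣ n then 1 else 0) := by
  obtain ⟨A, _, i2, hA⟩ := hc.mul (isCount_prime hp)
  have h3 := isFT_spec A
  obtain ⟨σ, hσ⟩ := zeta_scheme h3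
  have hK : ∀ (K : Type) [Field K] [Finite K],
      c (Nat.card K) * (if p ∣ Nat.card K then 1 else 0) =
        (Nat.card (Spec (CommRingCat.of K) ⟶ Spec (CommRingCat.of A)) : ℂ) := by
    intro K _ _
    have := Fintype.ofFinite K
    have hn : IsPrimePow (Nat.card K) := by
      rw [Nat.card_eq_fintype_card]
      exact FiniteField.isPrimePow_card K
    rw [card_points_spec, card_hom_field A K]
    exact hA _ hn
  have h5 : Mero (fun n => (HW.ptCount (Spec (CommRingCat.of A)) n : ℂ)) := by
    refine mero_of_continues (hD p _ hp h3 fun K _ _ hpK => ?_) ⟨σ, hσ⟩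
    have h6 := hK K
    rw [if_neg hpK, mul_zero, card_points_spec] at h6
    have h7 : Nat.card (A →+* K) = 0 := by exact_mod_cast h6.symm
    have hfin : Finite (A →+* K) := finite_ringHom A K
    have h8 : IsEmpty (A →+* K) := Finite.card_eq_zero_iff.1 h7
    exact ⟨fun φ => h8.false (Spec.preimage φ).hom⟩
  refine h5.congr fun n hn => ?_
  have h6 := hK (FF n)
  rw [card_points, card_FF hn] at h6
  exact h6.symm

/-- the zeta functions of all schemes continue if those of the pure schemes do -/
theorem q1_of_pure (hHD : HironakaDeligne) (hD : Dwork)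
    (h : ∀ N : ℕ, 0 < N → ∀ X : Scheme.{0}, Pure N X → Continues (zeta X))
    (X : Scheme.{0}) (hX : FiniteTypeZ X) : Continues (zeta X) := by
  obtain ⟨N, Y, Z, hN, hY, hZ, hXYZ⟩ := hHD X hX
  refine continues_of_mero ?_ (zeta_ptCount hX)
  have hY' : FiniteTypeZ Y := by
    obtain ⟨J, _, wt, A, hW⟩ := hY
    exact hW.finite_type
  have hZ' : FiniteTypeZ Z := by
    obtain ⟨J, _, wt, A, hW⟩ := hZ
    exact hW.finite_type
  have mY := mero_of_continues (h N hN Y hY) (zeta_ptCount hY')
  have mZ := mero_of_continues (h N hN Z hZ) (zeta_ptCount hZ')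
  have gX := (isCount_ptCount (isFT_of hX)).growth
  have gY := (isCount_ptCount (isFT_of hY')).growth
  have gZ := (isCount_ptCount (isFT_of hZ')).growth
  have key : ∀ S : Finset ℕ, (∀ p ∈ S, p.Prime) →
      Growth (fun n => ∑ p ∈ S, (HW.ptCount X n : ℂ) * if p ∣ n then 1 else 0) ∧
      Mero (fun n => ∑ p ∈ S, (HW.ptCount X n : ℂ) * if p ∣ n then 1 else 0) := by
    classical
    intro S
    induction S using Finset.induction_on with
    | empty =>
      intro _
      refine ⟨by simpa using Growth.const 0, ?_⟩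
      have h1 := mY.sub gY gY mY
      simpa using h1
    | insert p S hp ih =>
      intro hS
      obtain ⟨ih1, ih2⟩ := ih fun q hq => hS q (Finset.mem_insert_of_mem hq)
      have hpp := hS p (Finset.mem_insert_self p S)
      simp only [Finset.sum_insert hp]
      have g1 := ((isCount_ptCount (isFT_of hX)).mul (isCount_prime hpp)).growth
      exact ⟨g1.add ih1, (mero_prime hD (isCount_ptCount (isFT_of hX)) hpp).add g1 ih1 ih2⟩
  obtain ⟨k1, k2⟩ := key N.primeFactors fun p hp => Nat.prime_of_mem_primeFactors hp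
  refine (((mY.sub gY gZ mZ).add (gY.sub gZ) k1 k2)).congr fun n hn => ?_
  by_cases hg : n.Coprime N
  · have h1 := hXYZ (FF n) (by rw [card_FF hn]; exact hg)
    rw [card_points, card_points, card_points, card_FF hn] at h1
    have h2 : ∑ p ∈ N.primeFactors, (HW.ptCount X n : ℂ) * (if p ∣ n then 1 else 0) = 0 := by
      refine Finset.sum_eq_zero fun p hp => ?_
      rw [if_neg, mul_zero]
      intro hpn
      have := Nat.dvd_gcd hpn (Nat.dvd_of_mem_primeFactors hp)
      rw [hg] at this
      exact (Nat.prime_of_mem_primeFactors hp).one_lt.ne' (Nat.dvd_one.1 this)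
    rw [h2, ← h1]
    push_cast
    ring
  · have hbY : (HW.ptCount Y n : ℂ) = 0 := by
      obtain ⟨J, _, wt, A, hW⟩ := hY
      obtain ⟨p, k, hp, hk, rfl⟩ := hn
      refine (weil_of_weights hW).bad p k hp.nat_prime ?_ hk
      by_contra hN'
      exact hg (good_iff.2 ⟨p, k, hp.nat_prime, hN', hk, rfl⟩).2
    have hbZ : (HW.ptCount Z n : ℂ) = 0 := by
      obtain ⟨J, _, wt, A, hW⟩ := hZ
      obtain ⟨p, k, hp, hk, rfl⟩ := hn
      refine (weil_of_weights hW).bad p k hp.nat_prime ?_ hk
      by_contra hN'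
      exact hg (good_iff.2 ⟨p, k, hp.nat_prime, hN', hk, rfl⟩).2
    rw [hbY, hbZ]
    obtain ⟨p, k, hp, hk, rfl⟩ := hn
    have hp' := hp.nat_prime
    have hpN : p ∣ N := by
      by_contra hN'
      exact hg (good_iff.2 ⟨p, k, hp', hN', hk, rfl⟩).2
    rw [Finset.sum_eq_single p]
    · rw [if_pos (dvd_pow_self p hk.ne')]
      ring
    · intro q hq hqp
      rw [if_neg, mul_zero]
      intro hqd
      exact hqp ((Nat.prime_dvd_prime_iff_eq (Nat.prime_of_mem_primeFactors hq) hp').1
        ((Nat.prime_of_mem_primeFactors hq).dvd_of_dvd_pow hqd))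
    · intro hp2
      exact absurd (Nat.mem_primeFactors.2 ⟨hp', hpN, hN.ne'⟩) hp2

end Pool.Agent.HW4
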