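import Pool.Agent.HW3.Pow

/-!
# Complete symmetric functions of given power sums
-/

set_option autoImplicit false

open PowerSeries Pool.Agent.HW3

namespace Pool.Agent.HW4

/-- the complete symmetric functions of the power sums `S l` -/
noncomputable def hsum (S : ℕ → ℂ) : ℕ → ℂ
  | 0 => 1
  | (m + 1) => (∑ l : Fin (m + 1), S (l + 1) * hsum S (m - l)) / ((m + 1 : ℕ) : ℂ)

lemma hsum_zero (S : ℕ → ℂ) : hsum S 0 = 1 := by rw [hsum]

lemma hsum_rec (S : ℕ → ℂ) (m : ℕ) :
    (m : ℂ) * hsum S m = ∑ l ∈ Finset.range m, S (l + 1) * hsum S (m - (l + 1)) := by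
  cases m with
  | zero => simp
  | succ m =>
    have hm : ((m + 1 : ℕ) : ℂ) ≠ 0 := Nat.cast_ne_zero.2 m.succ_ne_zero
    rw [hsum, mul_div_cancel₀ _ hm, Finset.sum_range
      (fun l => S (l + 1) * hsum S (m + 1 - (l + 1)))]
    refine Finset.sum_congr rfl fun l _ => ?_
    rw [Nat.add_sub_add_right]

lemma LD_hsum (S : ℕ → ℂ) : LD (mk (hsum S)) S := by
  refine ⟨by rw [coeff_mk, hsum_zero], ?_⟩
  ext m
  cases m with
  | zero => simp
  | succ m =>
    rw [coeff_succ_X_mul, coeff_derivative, mul_left_comm, coeff_succ_X_mul, mul_comm (mk _),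
      coeff_mul, Finset.Nat.sum_antidiagonal_eq_sum_range_succ
        (fun i j => coeff i (mk fun l => S (l + 1)) * coeff j (mk (hsum S))), coeff_mk, mul_comm]
    have h := hsum_rec S (m + 1)
    push_cast at h
    rw [h]
    refine Finset.sum_congr rfl fun l _ => ?_
    rw [coeff_mk, coeff_mk]

lemma hsum_eq {g : PowerSeries ℂ} {S : ℕ → ℂ} (h : LD g S) (m : ℕ) : hsum S m = coeff m g :=
  h.unique (hsum_zero S) (fun m _ => hsum_rec S m) m

lemma hsum_add (S T : ℕ → ℂ) (m : ℕ) :
    hsum (fun l => S l + T l) m = ∑ i ∈ Finset.range (m + 1), hsum S i * hsum T (m - i) := by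
  rw [hsum_eq ((LD_hsum S).mul (LD_hsum T)) m, coeff_mul,
    Finset.Nat.sum_antidiagonal_eq_sum_range_succ
      (fun i j => coeff i (mk (hsum S)) * coeff j (mk (hsum T)))]
  refine Finset.sum_congr rfl fun i _ => ?_
  rw [coeff_mk, coeff_mk]

lemma hsum_nil {m : ℕ} (hm : 0 < m) : hsum (fun _ => 0) m = 0 := by
  rw [hsum_eq LD.one m, coeff_one, if_neg hm.ne']

lemma hsum_neg (T : ℕ → ℂ) {m : ℕ} (hm : 0 < m) :
    hsum (fun l => - T l) m =
      - ∑ i ∈ Finset.range m, hsum T (i + 1) * hsum (fun l => - T l) (m - (i + 1)) := by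
  have h := hsum_add T (fun l => - T l) m
  have e : (fun l => T l + - T l) = fun _ => (0 : ℂ) := by funext l; ring
  rw [e, hsum_nil hm, Finset.sum_range_succ', hsum_zero, one_mul, Nat.sub_zero] at h
  linear_combination -h

lemma hsum_scale (S : ℕ → ℂ) (a : ℂ) (m : ℕ) :
    hsum (fun l => a ^ l * S l) m = a ^ m * hsum S m := by
  induction m using Nat.strong_induction_on with
  | _ m ih =>
    rcases Nat.eq_zero_or_pos m with rfl | hm
    · rw [hsum_zero, hsum_zero, pow_zero, one_mul]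
    · have hm' : (m : ℂ) ≠ 0 := Nat.cast_ne_zero.2 hm.ne'
      apply mul_left_cancel₀ hm'
      rw [hsum_rec, mul_left_comm, hsum_rec, Finset.mul_sum]
      refine Finset.sum_congr rfl fun l hl => ?_
      rw [Finset.mem_range] at hl
      rw [ih _ (by omega)]
      have : a ^ m = a ^ (l + 1) * a ^ (m - (l + 1)) := by
        rw [← pow_add]; congr 1; omega
      rw [this]
      ring

lemma hsum_of_rec {S : ℕ → ℂ} {σ : ℕ → ℂ}
    (h : ∀ m : ℕ, (m : ℂ) * σ m = ∑ l ∈ Finset.range m, S (l + 1) * σ (m - (l + 1))) (m : ℕ) :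
    σ m = σ 0 * hsum S m := by
  induction m using Nat.strong_induction_on with
  | _ m ih =>
    rcases Nat.eq_zero_or_pos m with rfl | hm
    · rw [hsum_zero, mul_one]
    · have hm' : (m : ℂ) ≠ 0 := Nat.cast_ne_zero.2 hm.ne'
      apply mul_left_cancel₀ hm'
      rw [h, mul_left_comm, hsum_rec, Finset.mul_sum]
      refine Finset.sum_congr rfl fun l hl => ?_
      rw [Finset.mem_range] at hl
      rw [ih _ (by omega)]
      ring

lemma hsum_congr {S T : ℕ → ℂ} (h : ∀ l, 0 < l → S l = T l) (m : ℕ) : hsum S m = hsum T m := by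
  rw [hsum_eq ((LD_hsum T).congr fun l hl => (h l hl).symm) m, coeff_mk]

end Pool.Agent.HW4
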