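import Pool.Agent.HW4.Wei

/-!
# The completed ring is closed under symmetric powers
-/

set_option autoImplicit false

open Pool.Agent.Helper29.Zeta Pool.Agent.HW Pool.Agent.HW3

namespace Pool.Agent.HW4

/-- the complete symmetric functions of `c (n), c (n ^ 2), ...` -/
noncomputable def sg (c : ℕ → ℂ) (m n : ℕ) : ℂ := hsum (fun l => c (n ^ l)) m

lemma sg_zero (c : ℕ → ℂ) (n : ℕ) : sg c 0 n = 1 := hsum_zero _

lemma sg_rec (c : ℕ → ℂ) (m n : ℕ) :
    (m : ℂ) * sg c m n = ∑ l ∈ Finset.range m, c (n ^ (l + 1)) * sg c (m - (l + 1)) n :=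
  hsum_rec _ m

variable {N : ℕ} {P : (ℕ → ℂ) → Prop} [Closed N P]

lemma good_pow' {n : ℕ} (hn : Good N n) {l : ℕ} (hl : 0 < l) : Good N (n ^ l) :=
  ⟨hn.1.pow hl.ne', Nat.Coprime.pow_left l hn.2⟩

lemma Cl.sg {c : ℕ → ℂ} (h : Cl N P c) (m : ℕ) : Vir N P (sg c m) := by
  obtain ⟨σ, h1, h2, h3⟩ := sym_exists h.1
  have hcount : IsCount (fun n => σ m n * ind N n) := (h1 m).mul (IsCount.coprime N)
  have hPm : P (fun n => σ m n * ind N n) := by
    refine Closed.sym (N := N) c (fun m n => σ m n * ind N n) h.2 (fun n hn => ?_)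
      (fun m n hn => ?_) m
    · rw [h2 n hn, one_mul]
    · rw [← mul_assoc, h3 n hn m, Finset.sum_mul]
      exact Finset.sum_congr rfl fun l _ => by ring
  refine (Vir.of_cl ⟨hcount, hPm⟩).congr fun n hn => ?_
  rw [ind_of_good hn, mul_one, hsum_of_rec (S := fun l => c (n ^ l)) (σ := fun m => σ m n)
    (fun m => h3 n hn.1 m) m, h2 n hn.1, one_mul]
  rfl

lemma Vir.sum {T : Type*} (s : Finset T) {c : T → ℕ → ℂ} (h : ∀ t ∈ s, Vir N P (c t)) :
    Vir N P (fun n => ∑ t ∈ s, c t n) := by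
  classical
  induction s using Finset.induction_on with
  | empty => simpa using Vir.zero
  | insert a s ha ih =>
    refine Vir.congr ((h a (Finset.mem_insert_self a s)).add
      (ih fun t ht => h t (Finset.mem_insert_of_mem ht))) (fun n _ => ?_)
    rw [Finset.sum_insert ha]

lemma Vir.sg_neg {b : ℕ → ℂ} (hb : ∀ m, Vir N P (HW4.sg b m)) (m : ℕ) :
    Vir N P (HW4.sg (fun n => - b n) m) := by
  induction m using Nat.strong_induction_on with
  | _ m ih =>
    rcases Nat.eq_zero_or_pos m with rfl | hm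
    · exact Vir.one.congr fun n _ => (sg_zero _ n).symm
    · refine Vir.congr (Vir.neg (Vir.sum (Finset.range m) (c := fun i n =>
        HW4.sg b (i + 1) n * HW4.sg (fun n => - b n) (m - (i + 1)) n) fun i hi => ?_))
        (fun n _ => ?_)
      · rw [Finset.mem_range] at hi
        exact (hb (i + 1)).mul (ih _ (by omega))
      · exact (hsum_neg (fun l => b (n ^ l)) hm).symm

lemma Vir.sg {r : ℕ → ℂ} (h : Vir N P r) (m : ℕ) : Vir N P (HW4.sg r m) := by
  obtain ⟨a, b, j, ha, hb, h⟩ := h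
  have h1 : Vir N P (fun n => ∑ i ∈ Finset.range (m + 1),
      HW4.sg a i n * HW4.sg (fun n => - b n) (m - i) n) :=
    Vir.sum _ fun i _ => (ha.sg i).mul (Vir.sg_neg (fun i => hb.sg i) _)
  refine (h1.div (j * m)).congr fun n hn => ?_
  have hn0 : (n : ℂ) ≠ 0 := by exact_mod_cast hn.pos.ne'
  have e1 : ∑ i ∈ Finset.range (m + 1), HW4.sg a i n * HW4.sg (fun n => - b n) (m - i) n =
      hsum (fun l => a (n ^ l) + - b (n ^ l)) m :=
    (hsum_add (fun l => a (n ^ l)) (fun l => - b (n ^ l)) m).symm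
  rw [e1]
  have e2 : hsum (fun l => a (n ^ l) + - b (n ^ l)) m =
      hsum (fun l => ((n : ℂ) ^ j) ^ l * r (n ^ l)) m := by
    refine hsum_congr (fun l hl => ?_) m
    have h2 := h (n ^ l) (good_pow' hn hl)
    rw [Nat.cast_pow] at h2
    rw [← pow_mul, mul_comm j l, pow_mul, h2]
    ring
  rw [e2, hsum_scale, ← pow_mul]
  unfold HW4.sg
  rw [mul_div_cancel_left₀ _ (pow_ne_zero _ hn0)]

/-! ### bounds -/

omit [Closed N P] in
lemma Bd.adams {x : ℝ} {c : ℕ → ℂ} (h : Bd N x c) {l : ℕ} (hl : 0 < l) :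
    Bd N (x * l) (fun n => c (n ^ l)) := by
  obtain ⟨C, hC⟩ := h
  refine ⟨C, fun n hn => ?_⟩
  have hn0 : (0 : ℝ) < n := by exact_mod_cast hn.pos
  have h1 := hC (n ^ l) (good_pow' hn hl)
  rw [Nat.cast_pow, ← Real.rpow_natCast, ← Real.rpow_mul hn0.le] at h1
  rw [mul_comm x]
  exact h1

omit [Closed N P] in
lemma Bd.of_natMul {x : ℝ} {m : ℕ} (hm : 0 < m) {c : ℕ → ℂ} (h : Bd N x (fun n => (m : ℂ) * c n)) :
    Bd N x c := by
  have h1 : Bd N 0 (fun _ => (m : ℂ)⁻¹) := ⟨‖(m : ℂ)⁻¹‖, fun n _ => by simp⟩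
  have h2 := h1.mul h
  rw [zero_add] at h2
  refine h2.congr fun n _ => ?_
  rw [← mul_assoc, inv_mul_cancel₀ (Nat.cast_ne_zero.2 hm.ne'), one_mul]

omit [Closed N P] in
lemma Bd.sg {a : ℝ} {c : ℕ → ℂ} (h : Bd N a c) (m : ℕ) : Bd N (a * m) (sg c m) := by
  induction m using Nat.strong_induction_on with
  | _ m ih =>
    rcases Nat.eq_zero_or_pos m with rfl | hm
    · exact ((Bd.one (N := N) (x := 0) le_rfl).mono (by simp)).congr fun n _ => (sg_zero _ n).symm
    · refine Bd.of_natMul hm (Bd.congr (Bd.sum (Finset.range m) (c := fun l n =>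
        c (n ^ (l + 1)) * HW4.sg c (m - (l + 1)) n) fun l hl => ?_) fun n _ => (sg_rec c m n).symm)
      rw [Finset.mem_range] at hl
      refine ((h.adams l.succ_pos).mul (ih (m - (l + 1)) (by omega))).mono (le_of_eq ?_)
      rw [← mul_add]
      congr 1
      have : (l + 1) + (m - (l + 1)) = m := by omega
      exact_mod_cast this

omit [Closed N P] in
lemma Bd.sg_sub {a x : ℝ} (hx : x ≤ 0) (ha : 0 ≤ a) {c r : ℕ → ℂ} (hc : Bd N a c) (hr : Bd N a r)
    (h : Bd N x (fun n => c n - r n)) (m : ℕ) :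
    Bd N (x + a * m) (fun n => HW4.sg c m n - HW4.sg r m n) := by
  induction m using Nat.strong_induction_on with
  | _ m ih =>
    rcases Nat.eq_zero_or_pos m with rfl | hm
    · exact (Bd.zero _).congr fun n _ => by rw [sg_zero, sg_zero, sub_self]
    · refine Bd.of_natMul hm (Bd.congr (Bd.sum (Finset.range m) (c := fun l n =>
        (c (n ^ (l + 1)) - r (n ^ (l + 1))) * HW4.sg c (m - (l + 1)) n +
          r (n ^ (l + 1)) * (HW4.sg c (m - (l + 1)) n - HW4.sg r (m - (l + 1)) n))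
            fun l hl => ?_) fun n _ => ?_)
      · rw [Finset.mem_range] at hl
        have e : ((l + 1 : ℕ) : ℝ) + ((m - (l + 1) : ℕ) : ℝ) = m := by
          have : (l + 1) + (m - (l + 1)) = m := by omega
          exact_mod_cast this
        have hl0 : (0 : ℝ) ≤ l := Nat.cast_nonneg l
        have hl1 : ((l + 1 : ℕ) : ℝ) = (l : ℝ) + 1 := by push_cast; ring
        refine Bd.add (((h.adams l.succ_pos).mul (hc.sg (m - (l + 1)))).mono ?_)
          (((hr.adams l.succ_pos).mul (ih (m - (l + 1)) (by omega))).mono ?_)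
        · have e2 : ((m - (l + 1) : ℕ) : ℝ) = m - ((l + 1 : ℕ) : ℝ) := by linarith
          rw [e2, hl1]
          nlinarith
        · have e2 : ((m - (l + 1) : ℕ) : ℝ) = m - ((l + 1 : ℕ) : ℝ) := by linarith
          rw [e2, hl1]
          nlinarith
      · rw [mul_sub, sg_rec, sg_rec, ← Finset.sum_sub_distrib]
        exact Finset.sum_congr rfl fun l _ => by ring

/-- the completed ring is closed under symmetric powers -/
theorem Hat.sg {c : ℕ → ℂ} (h : Hat N P c) (m : ℕ) : Hat N P (HW4.sg c m) := by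
  intro y
  obtain ⟨a, ha, hca⟩ := h.bd
  obtain ⟨r, hr, hb⟩ := h (min 0 (y - a * m))
  have hra : Bd N a r := (hca.add (hb.mono ((min_le_left _ _).trans ha)).neg).congr
    fun n _ => by ring
  refine ⟨_, hr.sg m, (Bd.sg_sub (min_le_left _ _) ha hca hra hb m).mono ?_⟩
  have := min_le_right 0 (y - a * m)
  linarith

end Pool.Agent.HW4
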